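import Pool.Agent.H91.QS.Fld

set_option autoImplicit false

namespace Pool.Agent.H91.QS

open Polynomial IntermediateField

section

variable {k L : Type*} [Field k] [Field L] [Algebra k L]

theorem induction_step [Algebra.IsIntegral k L] {x y z : L}
    (hx' : Group.IsSolvable (minpoly k x).Gal) (hy' : Group.IsSolvable (minpoly k y).Gal)
    (hz' : z ∈ k⟮x, y⟯) : Group.IsSolvable (minpoly k z).Gal := by
  let p := minpoly k x
  let q := minpoly k y
  have hI : ∀ a : L, IsIntegral k a := fun a => Algebra.IsIntegral.isIntegral a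
  have hpq := SplittingField.splits (p * q)
  rw [Polynomial.map_mul,
    splits_mul (map_ne_zero (minpoly.ne_zero (hI x)))
      (map_ne_zero (minpoly.ne_zero (hI y)))] at hpq
  have f : ↥k⟮x, y⟯ →ₐ[k] (p * q).SplittingField :=
    Classical.choice <| nonempty_algHom_adjoin_of_splits <| by
      rintro a (rfl | rfl)
      · exact ⟨hI a, hpq.1⟩
      · exact ⟨hI a, hpq.2⟩
  have key : minpoly k z = minpoly k (f ⟨z, hz'⟩) := by
    refine minpoly.eq_of_irreducible_of_monic (minpoly.irreducible (hI z)) ?_
      (minpoly.monic (hI z))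
    rw [aeval_algHom_apply, map_eq_zero]
    apply (algebraMap (↥k⟮x, y⟯) L).injective
    simp [← aeval_algebraMap_apply]
  rw [key]
  refine gal_isSolvable_of_splits ⟨Normal.splits ?_ (f ⟨z, hz'⟩)⟩ (gal_mul_isSolvable hx' hy')
  infer_instance

/-- the elements with solvable minimal polynomial -/
def solvElts (k L : Type*) [Field k] [Field L] [Algebra k L] [Algebra.IsIntegral k L] :
    IntermediateField k L where
  carrier := {z | Group.IsSolvable (minpoly k z).Gal}
  mul_mem' := fun {x y} hx hy => induction_step hx hy
    (mul_mem (subset_adjoin _ _ (by simp)) (subset_adjoin _ _ (by simp)))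
  add_mem' := fun {x y} hx hy => induction_step hx hy
    (add_mem (subset_adjoin _ _ (by simp)) (subset_adjoin _ _ (by simp)))
  algebraMap_mem' := fun a => by
    show Group.IsSolvable (minpoly k (algebraMap k L a)).Gal
    rw [minpoly.eq_X_sub_C]
    exact gal_X_sub_C_isSolvable a
  inv_mem' := fun x hx => induction_step hx hx (inv_mem (subset_adjoin _ _ (by simp)))

/-- the compositum of the finite solvable Galois extensions of `k` -/
noncomputable def Ksolv (k L : Type*) [Field k] [Field L] [Algebra k L] : IntermediateField k L :=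
  ⨆ (E : IntermediateField k L)
    (_ : IsGalois k E ∧ FiniteDimensional k E ∧ Group.IsSolvable (E ≃ₐ[k] E)), E

/-- Elements with solvable minimal polynomial are in the compositum. -/
theorem mem_of_solvable [CharZero k] [IsAlgClosure k L] (z : L)
    (hz : Group.IsSolvable (minpoly k z).Gal) : z ∈ Ksolv k L := by
  haveI : IsAlgClosed L := IsAlgClosure.isAlgClosed k
  haveI : Algebra.IsAlgebraic k L := IsAlgClosure.isAlgebraic
  let m := minpoly k z
  have hint : IsIntegral k z := Algebra.IsIntegral.isIntegral z
  let E : IntermediateField k L := adjoin k (m.rootSet L)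
  have hs : IsSplittingField k E m := adjoin_rootSet_isSplittingField (IsAlgClosed.splits _)
  have h1 : FiniteDimensional k E := IsSplittingField.finiteDimensional E m
  have h2 : Normal k E := Normal.of_isSplittingField m
  have h3 : IsGalois k E := ⟨⟩
  have h4 : Group.IsSolvable (E ≃ₐ[k] E) := by
    let e := (IsSplittingField.algEquiv E m).autCongr
    have hz' : Group.IsSolvable (m.SplittingField ≃ₐ[k] m.SplittingField) := hz
    exact Group.isSolvable_of_isSolvable_injective (f := e.toMonoidHom) e.injective
  have h5 : z ∈ E := by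
    apply subset_adjoin
    rw [mem_rootSet]
    exact ⟨minpoly.ne_zero hint, minpoly.aeval k z⟩
  have h6 : E ≤ Ksolv k L := le_iSup₂_of_le E ⟨h3, h1, h4⟩ le_rfl
  exact h6 h5

theorem solvable_of_mem [IsAlgClosure k L] (z : L) (hz : z ∈ Ksolv k L) :
    Group.IsSolvable (minpoly k z).Gal := by
  haveI : Algebra.IsAlgebraic k L := IsAlgClosure.isAlgebraic
  have h : Ksolv k L ≤ solvElts k L := by
    refine iSup₂_le fun E hE => ?_
    obtain ⟨h1, h2, h3⟩ := hE
    intro w hw
    show Group.IsSolvable (minpoly k w).Gal
    have h4 : minpoly k w = minpoly k (⟨w, hw⟩ : E) :=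
      (minpoly.algebraMap_eq (algebraMap E L).injective (⟨w, hw⟩ : E))
    rw [h4]
    haveI : Fact (((minpoly k (⟨w, hw⟩ : E)).map (algebraMap k E)).Splits) :=
      ⟨Normal.splits inferInstance _⟩
    exact Group.isSolvable_of_surjective
      (Gal.restrict_surjective (minpoly k (⟨w, hw⟩ : E)) E)
  exact h hz

/-- The compositum contains the roots of the polynomials of degree at most four over it. -/
theorem root_mem [CharZero k] [IsAlgClosure k L] (p : (Ksolv k L)[X]) (h1 : p.natDegree ≠ 0)
    (h4 : p.natDegree ≤ 4) : ∃ x : Ksolv k L, p.eval x = 0 := by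
  haveI : IsAlgClosed L := IsAlgClosure.isAlgClosed k
  let P : L[X] := p.map (algebraMap (Ksolv k L) L)
  have hdeg : P.natDegree = p.natDegree := natDegree_map _
  have hP : P.degree ≠ 0 := by
    intro h
    have := natDegree_eq_of_degree_eq_some h
    exact h1 (hdeg ▸ this)
  obtain ⟨α, hα⟩ := IsAlgClosed.exists_root P hP
  have hP0 : P ≠ 0 := by
    rintro h
    rw [h] at hdeg
    exact h1 (by rw [← hdeg, natDegree_zero])
  have h5 := solvable_root (k := k) α P hP0 (hdeg ▸ h4) hα (fun i => by
    apply solvable_of_mem
    rw [coeff_map]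
    exact (p.coeff i).2)
  have h6 := mem_of_solvable α h5
  refine ⟨⟨α, h6⟩, ?_⟩
  apply (algebraMap (Ksolv k L) L).injective
  rw [map_zero, ← eval₂_at_apply, ← eval_map]
  exact hα

end

end Pool.Agent.H91.QS
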