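import Mathlib

set_option autoImplicit false

namespace Pool.Agent.H91.QS

open Polynomial

section

variable {K : Type*} [Field K]

theorem deriv_aeval (u : Fin 2 → K[X]) (f : MvPolynomial (Fin 2) K) :
    derivative (MvPolynomial.aeval u f) =
      MvPolynomial.aeval u (MvPolynomial.pderiv 0 f) * derivative (u 0) +
      MvPolynomial.aeval u (MvPolynomial.pderiv 1 f) * derivative (u 1) := by
  induction f using MvPolynomial.induction_on with
  | C a => simp
  | add p q hp hq => simp only [map_add, derivative_add, hp, hq]; ring
  | mul_X p i hp =>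
    fin_cases i
    · simp [hp, MvPolynomial.pderiv_X_self, MvPolynomial.pderiv_X_of_ne, derivative_mul]; ring
    · simp [hp, MvPolynomial.pderiv_X_self, MvPolynomial.pderiv_X_of_ne, derivative_mul]; ring

theorem natDegree_aeval_le (u : Fin 2 → K[X]) (f : MvPolynomial (Fin 2) K) (N : ℕ)
    (h : ∀ d ∈ f.support, d 0 * (u 0).natDegree + d 1 * (u 1).natDegree ≤ N) :
    (MvPolynomial.aeval u f).natDegree ≤ N := by
  rw [MvPolynomial.aeval_def, MvPolynomial.eval₂_eq']
  refine natDegree_sum_le_of_forall_le _ _ fun d hd => ?_
  refine natDegree_mul_le.trans ?_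
  have h1 : (algebraMap K K[X] (f.coeff d)).natDegree = 0 := natDegree_C _
  rw [h1, zero_add, Fin.prod_univ_two]
  refine natDegree_mul_le.trans ?_
  exact (Nat.add_le_add natDegree_pow_le natDegree_pow_le).trans (h d hd)

theorem eval_aeval (u : Fin 2 → K[X]) (f : MvPolynomial (Fin 2) K) (s : K) :
    (MvPolynomial.aeval u f).eval s = MvPolynomial.eval ![(u 0).eval s, (u 1).eval s] f := by
  induction f using MvPolynomial.induction_on with
  | C a => simp
  | add p q hp hq => simp only [map_add, eval_add, hp, hq]
  | mul_X p i hp => fin_cases i <;> simp [hp]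

/-- Every polynomial of degree between 1 and 4 has a root. -/
def Rts (K : Type*) [Field K] : Prop :=
  ∀ p : K[X], p.natDegree ≠ 0 → p.natDegree ≤ 4 → ∃ x, p.eval x = 0

theorem eq_zero_of_prod [Infinite K] (g q : MvPolynomial (Fin 2) K) (hq : q ≠ 0)
    (h : ∀ x y : K, MvPolynomial.eval ![x, y] q ≠ 0 → MvPolynomial.eval ![x, y] g = 0) :
    g = 0 := by
  have h1 : g * q = 0 := by
    apply MvPolynomial.funext
    intro v
    have hv : v = ![v 0, v 1] := by
      funext i; fin_cases i <;> rfl
    rw [map_mul, map_zero, hv]
    by_cases h2 : MvPolynomial.eval ![v 0, v 1] q = 0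
    · rw [h2, mul_zero]
    · rw [h _ _ h2, zero_mul]
  rcases mul_eq_zero.mp h1 with h2 | h2
  · exact h2
  · exact absurd h2 hq

theorem case_Y [Infinite K] (hK : Rts K) (f : MvPolynomial (Fin 2) K) (a b : K)
    (hy : MvPolynomial.eval ![a, b] (MvPolynomial.pderiv 1 f) ≠ 0)
    (hd : MvPolynomial.degreeOf 1 f ≤ 4) :
    {p : Fin 2 → K | MvPolynomial.eval p f = 0}.Infinite := by
  classical
  intro hfin
  have hT : ((fun p : Fin 2 → K => p 0) '' {p | MvPolynomial.eval p f = 0}).Finite := hfin.image _
  set T : Finset K := hT.toFinset with hTdef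
  have hconst : ∀ x, x ∉ T → (MvPolynomial.aeval ![C x, X] f : K[X]).natDegree = 0 := by
    intro x hx
    by_contra h0
    have h1 : (MvPolynomial.aeval ![C x, X] f : K[X]).natDegree ≤ 4 := by
      refine (natDegree_aeval_le _ f _ (fun d hd' => ?_)).trans hd
      have h2 : d 1 ≤ MvPolynomial.degreeOf 1 f := MvPolynomial.monomial_le_degreeOf 1 hd'
      simpa using h2
    obtain ⟨y, hy'⟩ := hK _ h0 h1
    rw [eval_aeval] at hy'
    apply hx
    rw [hTdef, Set.Finite.mem_toFinset]
    exact ⟨![x, y], by simpa using hy', rfl⟩
  have hder : MvPolynomial.pderiv 1 f = 0 := by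
    refine eq_zero_of_prod _ (∏ t ∈ T, (MvPolynomial.X 0 - MvPolynomial.C t)) ?_ ?_
    · rw [Finset.prod_ne_zero_iff]
      intro t _ h0
      have := congrArg (MvPolynomial.eval ![t + 1, 0]) h0
      simp at this
    · intro x y hxy
      have hx : x ∉ T := by
        intro hx
        apply hxy
        rw [map_prod]
        exact Finset.prod_eq_zero hx (by simp)
      have h1 := hconst x hx
      have h2 := derivative_of_natDegree_zero h1
      rw [deriv_aeval] at h2
      have h3 := congrArg (Polynomial.eval y) h2
      simp only [Matrix.cons_val_zero, Matrix.cons_val_one, derivative_C, mul_zero, derivative_X,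
        mul_one, zero_add, Polynomial.eval_zero] at h3
      rw [eval_aeval] at h3
      simpa using h3
  rw [hder, map_zero] at hy
  exact hy rfl

theorem case_X [CharZero K] (hK : Rts K) (f : MvPolynomial (Fin 2) K) (a b : K)
    (h0 : MvPolynomial.eval ![a, b] f = 0) (hd : MvPolynomial.degreeOf 0 f ≤ 4) :
    {p : Fin 2 → K | MvPolynomial.eval p f = 0}.Infinite := by
  classical
  haveI : Infinite K := CharZero.infinite K
  intro hfin
  have hT : ((fun p : Fin 2 → K => p 1) '' {p | MvPolynomial.eval p f = 0}).Finite := hfin.image _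
  set T : Finset K := hT.toFinset with hTdef
  have hconst : ∀ y, y ∉ T → (MvPolynomial.aeval ![X, C y] f : K[X]).natDegree = 0 := by
    intro y hy
    by_contra h0
    have h1 : (MvPolynomial.aeval ![X, C y] f : K[X]).natDegree ≤ 4 := by
      refine (natDegree_aeval_le _ f _ (fun d hd' => ?_)).trans hd
      have h2 : d 0 ≤ MvPolynomial.degreeOf 0 f := MvPolynomial.monomial_le_degreeOf 0 hd'
      simpa using h2
    obtain ⟨x, hx'⟩ := hK _ h0 h1
    rw [eval_aeval] at hx'
    apply hy
    rw [hTdef, Set.Finite.mem_toFinset]
    exact ⟨![x, y], by simpa using hx', rfl⟩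
  have hder : MvPolynomial.pderiv 0 f = 0 := by
    refine eq_zero_of_prod _ (∏ t ∈ T, (MvPolynomial.X 1 - MvPolynomial.C t)) ?_ ?_
    · rw [Finset.prod_ne_zero_iff]
      intro t _ h0
      have := congrArg (MvPolynomial.eval ![0, t + 1]) h0
      simp at this
    · intro x y hxy
      have hx : y ∉ T := by
        intro hx
        apply hxy
        rw [map_prod]
        exact Finset.prod_eq_zero hx (by simp)
      have h1 := hconst y hx
      have h2 := derivative_of_natDegree_zero h1
      rw [deriv_aeval] at h2
      have h3 := congrArg (Polynomial.eval x) h2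
      simp only [Matrix.cons_val_zero, Matrix.cons_val_one, derivative_C, mul_zero, derivative_X,
        mul_one, add_zero, Polynomial.eval_zero] at h3
      rw [eval_aeval] at h3
      simpa using h3
  have h1 : derivative (MvPolynomial.aeval ![X, C b] f : K[X]) = 0 := by
    rw [deriv_aeval, hder]
    simp
  have h2 := natDegree_eq_zero_of_derivative_eq_zero h1
  obtain ⟨c, hc⟩ := natDegree_eq_zero.mp h2
  have h3 : ∀ x, MvPolynomial.eval ![x, b] f = c := by
    intro x
    have := eval_aeval ![X, C b] f x
    rw [← hc] at this
    simpa using this.symm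
  have h4 : c = 0 := by rw [← h3 a, h0]
  refine Set.infinite_of_injective_forall_mem (f := fun x : K => (![x, b] : Fin 2 → K)) ?_ ?_ hfin
  · intro x x' h
    simpa using congrFun h 0
  · intro x
    show MvPolynomial.eval ![x, b] f = 0
    rw [h3, h4]

theorem case_T [CharZero K] (hK : Rts K) (f : MvPolynomial (Fin 2) K) (a b : K)
    (h0 : MvPolynomial.eval ![a, b] f = 0)
    (hy : MvPolynomial.eval ![a, b] (MvPolynomial.pderiv 1 f) ≠ 0)
    (hd : f.totalDegree ≤ 5) :
    {p : Fin 2 → K | MvPolynomial.eval p f = 0}.Infinite := by
  classical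
  haveI : Infinite K := CharZero.infinite K
  intro hfin
  set fx := MvPolynomial.eval ![a, b] (MvPolynomial.pderiv 0 f) with hfx
  set fy := MvPolynomial.eval ![a, b] (MvPolynomial.pderiv 1 f) with hfy
  have hT : ((fun p : Fin 2 → K => (p 1 - b) / (p 0 - a)) ''
      {p | MvPolynomial.eval p f = 0}).Finite := hfin.image _
  set T : Finset K := insert (-(fx / fy)) hT.toFinset with hTdef
  have key : ∀ t, t ∉ T → ∀ s, MvPolynomial.eval ![a + s, b + t * s] f = (fx + t * fy) * s := by
    intro t ht
    set G : K[X] := MvPolynomial.aeval ![C a + X, C b + C t * X] f with hG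
    have hGe : ∀ s, G.eval s = MvPolynomial.eval ![a + s, b + t * s] f := by
      intro s
      rw [hG, eval_aeval]
      simp
    have hG0 : G.coeff 0 = 0 := by
      rw [coeff_zero_eq_eval_zero, hGe]
      simpa using h0
    obtain ⟨H, hH⟩ := X_dvd_iff.mpr hG0
    have hGd : G.natDegree ≤ 5 := by
      refine (natDegree_aeval_le _ f _ (fun d hd' => ?_)).trans hd
      have h1 : (C a + X : K[X]).natDegree ≤ 1 := by
        refine (natDegree_add_le _ _).trans ?_
        simp
      have h2 : (C b + C t * X : K[X]).natDegree ≤ 1 := by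
        refine (natDegree_add_le _ _).trans ?_
        simp only [natDegree_C]
        exact max_le (Nat.zero_le _) ((natDegree_C_mul_le _ _).trans natDegree_X_le)
      have h3 : d 0 + d 1 ≤ f.totalDegree := by
        have := MvPolynomial.le_totalDegree hd'
        rw [Finsupp.sum_fintype _ _ (fun _ => rfl), Fin.sum_univ_two] at this
        exact this
      simp only [Matrix.cons_val_zero, Matrix.cons_val_one]
      calc d 0 * (C a + X : K[X]).natDegree + d 1 * (C b + C t * X : K[X]).natDegree
          ≤ d 0 * 1 + d 1 * 1 := by gcongr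
        _ ≤ f.totalDegree := by omega
    have hH0 : H.eval 0 = fx + t * fy := by
      have h1 := deriv_aeval ![C a + X, C b + C t * X] f
      rw [← hG, hH] at h1
      have h2 := congrArg (Polynomial.eval 0) h1
      simp only [derivative_mul, derivative_X, one_mul, eval_add, eval_mul, eval_X, zero_mul,
        add_zero, Matrix.cons_val_zero, Matrix.cons_val_one, derivative_C, zero_add,
        derivative_add, mul_one, Polynomial.eval_C] at h2
      rw [eval_aeval, eval_aeval] at h2
      simp only [Matrix.cons_val_zero, Matrix.cons_val_one, eval_add, eval_C, eval_X, eval_mul,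
        mul_zero, add_zero] at h2
      rw [h2]
      ring
    have hne : H.eval 0 ≠ 0 := by
      rw [hH0]
      intro h
      apply ht
      rw [hTdef, Finset.mem_insert]
      left
      field_simp
      linear_combination h
    have hHd : H.natDegree = 0 := by
      by_contra hcon
      have hH1 : H ≠ 0 := by
        rintro rfl
        simp at hcon
      have h1 : H.natDegree ≤ 4 := by
        have h2 : G.natDegree = H.natDegree + 1 := by
          rw [hH, natDegree_X_mul hH1]
        omega
      obtain ⟨s, hs⟩ := hK H hcon h1
      have hs0 : s ≠ 0 := by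
        rintro rfl
        exact hne hs
      apply ht
      rw [hTdef, Finset.mem_insert]
      right
      rw [Set.Finite.mem_toFinset]
      refine ⟨![a + s, b + t * s], ?_, ?_⟩
      · show MvPolynomial.eval _ f = 0
        rw [← hGe, hH, eval_mul, hs, mul_zero]
      · simp only [Matrix.cons_val_zero, Matrix.cons_val_one, add_sub_cancel_left]
        field_simp
    obtain ⟨c, hc⟩ := natDegree_eq_zero.mp hHd
    intro s
    rw [← hGe, hH, ← hc]
    rw [← hc] at hH0
    simp only [eval_C] at hH0
    simp only [eval_mul, eval_X, eval_C]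
    rw [hH0]; ring
  have hg : f - (MvPolynomial.C fx * (MvPolynomial.X 0 - MvPolynomial.C a) +
      MvPolynomial.C fy * (MvPolynomial.X 1 - MvPolynomial.C b)) = 0 := by
    refine eq_zero_of_prod _ ((MvPolynomial.X 0 - MvPolynomial.C a) *
      ∏ t ∈ T, ((MvPolynomial.X 1 - MvPolynomial.C b) -
        MvPolynomial.C t * (MvPolynomial.X 0 - MvPolynomial.C a))) ?_ ?_
    · refine mul_ne_zero ?_ ?_
      · intro h
        have := congrArg (MvPolynomial.eval ![a + 1, 0]) h
        simp at this
      · rw [Finset.prod_ne_zero_iff]
        intro t _ h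
        have := congrArg (MvPolynomial.eval ![a, b + 1]) h
        simp at this
    · intro x y hxy
      rw [map_mul] at hxy
      have h1 : x - a ≠ 0 := by
        intro h
        apply hxy
        simp [h]
      have h2 : (y - b) / (x - a) ∉ T := by
        intro h
        apply hxy
        rw [map_prod]
        rw [Finset.prod_eq_zero h, mul_zero]
        simp only [map_sub, map_mul, MvPolynomial.eval_X, MvPolynomial.eval_C,
          Matrix.cons_val_zero, Matrix.cons_val_one]
        field_simp
        ring
      have h3 := key _ h2 (x - a)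
      have h4 : a + (x - a) = x := by ring
      have h5 : b + (y - b) / (x - a) * (x - a) = y := by field_simp; ring
      rw [h4, h5] at h3
      simp only [map_sub, map_add, map_mul, MvPolynomial.eval_X, MvPolynomial.eval_C,
        Matrix.cons_val_zero, Matrix.cons_val_one]
      rw [h3]
      field_simp
      ring
  have hf := sub_eq_zero.mp hg
  refine Set.infinite_of_injective_forall_mem
    (f := fun s : K => (![a + s, b - fx / fy * s] : Fin 2 → K)) ?_ ?_ hfin
  · intro x x' h
    have := congrFun h 0
    simpa using this
  · intro s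
    show MvPolynomial.eval _ f = 0
    rw [hf]
    simp only [map_sub, map_add, map_mul, MvPolynomial.eval_X, MvPolynomial.eval_C,
      Matrix.cons_val_zero, Matrix.cons_val_one]
    field_simp
    ring

end

end Pool.Agent.H91.QS
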