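import Pool.Agent.H91.QS.Perm

set_option autoImplicit false

namespace Pool.Agent.H91.QS

open Polynomial

theorem gal_of_factors {F : Type*} [Field F] (M : F[X])
    (h : ∀ r : F[X], Irreducible r → r ∣ M → Group.IsSolvable r.Gal) :
    Group.IsSolvable M.Gal := by
  induction M using WfDvdMonoid.induction_on_irreducible with
  | zero => exact gal_zero_isSolvable
  | unit u hu =>
    obtain ⟨c, hc, rfl⟩ := Polynomial.isUnit_iff.mp hu
    exact gal_C_isSolvable c
  | mul a i ha hi ih =>
    exact gal_mul_isSolvable (h i hi (dvd_mul_right i a))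
      (ih fun r hr hra => h r hr (hra.mul_left i))

theorem factors_degree {k F L : Type*} [Field k] [Field F] [Field L] [Algebra k F] [Algebra k L] [Algebra F L]
    [IsScalarTower k F L] [Normal k F] [IsAlgClosure k L] (α : L) (p : F[X]) (hp : p ≠ 0)
    (hd : p.natDegree ≤ 4) (hα : aeval α p = 0) :
    Group.IsSolvable ((minpoly k α).map (algebraMap k F)).Gal := by
  haveI : IsAlgClosed L := IsAlgClosure.isAlgClosed k
  haveI : Algebra.IsAlgebraic k L := IsAlgClosure.isAlgebraic
  haveI : Normal k L := inferInstance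
  haveI : Algebra.IsAlgebraic F L := Algebra.IsAlgebraic.tower_top (K := k) F
  refine gal_of_factors _ fun r hr hrM => ?_
  apply gal_solvable_of_natDegree_le
  obtain ⟨β, hβ⟩ := IsAlgClosed.exists_aeval_eq_zero L r (degree_pos_of_irreducible hr).ne'
  have hmβ : aeval β (minpoly k α) = 0 := by
    obtain ⟨t, ht⟩ := hrM
    have h1 : aeval β ((minpoly k α).map (algebraMap k F)) = 0 := by rw [ht, map_mul, hβ, zero_mul]
    rwa [aeval_map_algebraMap] at h1
  have hint : IsIntegral k α := Algebra.IsIntegral.isIntegral α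
  have hmin : minpoly k α = minpoly k β :=
    minpoly.eq_of_irreducible_of_monic (minpoly.irreducible hint) hmβ (minpoly.monic hint)
  obtain ⟨τ, hτ⟩ := (Normal.minpoly_eq_iff_mem_orbit (F := k) (x := β) (y := α)).mp hmin.symm
  -- hτ : τ • α = β
  have hτ' : τ α = β := hτ
  let σ : F ≃ₐ[k] F := AlgEquiv.restrictNormal τ F
  have h2 : aeval β (p.map (σ : F →+* F)) = 0 := by
    rw [aeval_def, eval₂_map, ← hτ']
    have h3 : (algebraMap F L).comp (σ : F →+* F) = (τ : L →+* L).comp (algebraMap F L) :=
      RingHom.ext fun x => AlgEquiv.restrictNormal_commutes τ F x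
    rw [h3]
    have h4 := congrArg τ hα
    rw [map_zero, aeval_def] at h4
    have h5 := hom_eval₂ p (algebraMap F L) (τ : L →+* L) α
    exact h5.symm.trans h4
  have h3 : p.map (σ : F →+* F) ≠ 0 := (Polynomial.map_ne_zero_iff (σ : F →+* F).injective).mpr hp
  have h4 : (minpoly F β) ∣ r := minpoly.dvd F β hβ
  have h5 : Associated (minpoly F β) r :=
    (minpoly.irreducible (Algebra.IsIntegral.isIntegral β)).associated_of_dvd hr h4
  have h6 : r.natDegree = (minpoly F β).natDegree := (natDegree_eq_of_degree_eq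
    (degree_eq_degree_of_associated h5)).symm
  rw [h6]
  refine (natDegree_le_of_dvd (minpoly.dvd F β h2) h3).trans ?_
  exact natDegree_map_le.trans hd

/-- Roots of polynomials of degree at most four over a solvable extension. -/
theorem solvable_root {k L : Type*} [Field k] [Field L] [Algebra k L] [IsAlgClosure k L] (α : L)
    (p : L[X]) (hp : p ≠ 0) (hd : p.natDegree ≤ 4) (hα : p.eval α = 0)
    (hc : ∀ i, Group.IsSolvable (minpoly k (p.coeff i)).Gal) :
    Group.IsSolvable (minpoly k α).Gal := by
  classical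
  haveI : IsAlgClosed L := IsAlgClosure.isAlgClosed k
  haveI : Algebra.IsAlgebraic k L := IsAlgClosure.isAlgebraic
  let q₁ : k[X] := ((Multiset.range 5).map fun i => minpoly k (p.coeff i)).prod
  have hq₁ : Group.IsSolvable q₁.Gal := by
    refine gal_prod_isSolvable fun r hr => ?_
    obtain ⟨i, -, rfl⟩ := Multiset.mem_map.mp hr
    exact hc i
  let F := q₁.SplittingField
  let j : F →ₐ[k] L := IsAlgClosed.lift
  letI : Algebra F L := j.toRingHom.toAlgebra
  haveI : IsScalarTower k F L := IsScalarTower.of_algebraMap_eq fun x => (j.commutes x).symm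
  haveI : Normal k F := Normal.of_isSplittingField (E := q₁.SplittingField) q₁
  have hq0 : q₁ ≠ 0 := by
    apply Multiset.prod_ne_zero
    intro h0
    obtain ⟨i, -, hi⟩ := Multiset.mem_map.mp h0
    exact minpoly.ne_zero (Algebra.IsIntegral.isIntegral (p.coeff i)) hi
  have hmem : ∀ i, p.coeff i ∈ Set.range (algebraMap F L) := by
    intro i
    by_cases hi : i < 5
    · have h1 : minpoly k (p.coeff i) ∣ q₁ :=
        Multiset.dvd_prod (Multiset.mem_map_of_mem _ (Multiset.mem_range.mpr hi))
      have h2 : p.coeff i ∈ q₁.rootSet L := by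
        rw [mem_rootSet]
        refine ⟨hq0, ?_⟩
        obtain ⟨t, ht⟩ := h1
        rw [ht, map_mul, minpoly.aeval, zero_mul]
      have h3 := (SplittingField.splits q₁)
      rw [← h3.image_rootSet j] at h2
      obtain ⟨z, -, hz⟩ := h2
      exact ⟨z, hz⟩
    · exact ⟨0, by rw [map_zero, coeff_eq_zero_of_natDegree_lt (by omega)]⟩
  obtain ⟨p', hp'⟩ : ∃ p' : F[X], p'.map (algebraMap F L) = p := by
    have : p ∈ lifts (algebraMap F L) := (lifts_iff_coeff_lifts p).mpr hmem
    exact (mem_lifts p).mp this
  have hp0 : p' ≠ 0 := by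
    rintro rfl
    exact hp (by rw [← hp', Polynomial.map_zero])
  have hM := factors_degree (k := k) (F := F) α p' hp0 (by
    rw [← natDegree_map (algebraMap F L), hp']; exact hd) (by
    rw [aeval_def, ← eval_map, hp']; exact hα)
  have hM2 : Group.IsSolvable ((q₁ * minpoly k α).map (algebraMap k F)).Gal := by
    rw [Polynomial.map_mul]
    refine gal_mul_isSolvable ?_ hM
    refine gal_of_factors _ fun r hr hrM => gal_solvable_of_natDegree_le r ?_
    have h0 : q₁.map (algebraMap k F) ≠ 0 :=
      (Polynomial.map_ne_zero_iff (algebraMap k F).injective).mpr hq0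
    have h1 := (Splits.of_dvd (SplittingField.splits q₁) h0 hrM).degree_eq_one_of_irreducible hr
    rw [natDegree_eq_of_degree_eq_some h1]
    norm_num
  have hm0 : minpoly k α ≠ 0 := minpoly.ne_zero (Algebra.IsIntegral.isIntegral α)
  have hqm : (q₁ * minpoly k α).map
      (algebraMap k (q₁ * minpoly k α).SplittingField) ≠ 0 :=
    (Polynomial.map_ne_zero_iff (algebraMap k _).injective).mpr (mul_ne_zero hq0 hm0)
  have hT : Group.IsSolvable (q₁ * minpoly k α).Gal := by
    refine gal_isSolvable_tower q₁ (q₁ * minpoly k α) ?_ hq₁ hM2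
    exact Splits.of_dvd (SplittingField.splits _) hqm
      (Polynomial.map_dvd _ (dvd_mul_right _ _))
  exact gal_isSolvable_of_splits (q := q₁ * minpoly k α)
    ⟨Splits.of_dvd (SplittingField.splits _) hqm (Polynomial.map_dvd _ (dvd_mul_left _ _))⟩ hT

end Pool.Agent.H91.QS
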