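import Mathlib

set_option autoImplicit false

namespace Pool.Agent.H91.QS

open Equiv

theorem solvable_alt4 : Group.IsSolvable (alternatingGroup (Fin 4)) := by
  have h4 : Nat.card (Fin 4) = 4 := by simp
  have hK : IsKleinFour (alternatingGroup.kleinFour (Fin 4)) :=
    alternatingGroup.kleinFour_isKleinFour h4
  rw [Group.isSolvable_def]
  refine ⟨2, ?_⟩
  have h1 : derivedSeries (alternatingGroup (Fin 4)) 1 = alternatingGroup.kleinFour (Fin 4) := by
    rw [alternatingGroup.kleinFour_eq_commutator h4, derivedSeries_one]
  rw [derivedSeries_succ, h1, eq_bot_iff, Subgroup.commutator_le]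
  intro a ha b hb
  have hc : ∀ x y : alternatingGroup.kleinFour (Fin 4), x * y = y * x := by
    intro x y
    have he : Monoid.exponent (alternatingGroup.kleinFour (Fin 4)) = 2 := hK.exponent_two
    exact mul_comm_of_exponent_two he x y
  have := hc ⟨a, ha⟩ ⟨b, hb⟩
  have h2 : a * b = b * a := congrArg Subtype.val this
  rw [Subgroup.mem_bot, commutatorElement_eq_one_iff_mul_comm]
  exact h2

theorem solvable_perm4 : Group.IsSolvable (Perm (Fin 4)) := by
  haveI := solvable_alt4
  refine Group.isSolvable_of_ker_le_range (alternatingGroup (Fin 4)).subtype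
    (Perm.sign : Perm (Fin 4) →* ℤˣ) ?_
  rw [Subgroup.range_subtype]
  rfl

theorem solvable_perm (α : Type*) [Fintype α] (h : Fintype.card α ≤ 4) :
    Group.IsSolvable (Perm α) := by
  classical
  haveI := solvable_perm4
  obtain ⟨e⟩ : Nonempty (α ↪ Fin 4) := Function.Embedding.nonempty_of_card_le (by simpa using h)
  exact Group.isSolvable_of_isSolvable_injective (Equiv.Perm.viaEmbeddingHom_injective e)

open Polynomial in
theorem gal_solvable_of_natDegree_le {F : Type*} [Field F] (p : F[X]) (h : p.natDegree ≤ 4) :
    Group.IsSolvable p.Gal := by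
  classical
  by_cases h0 : p = 0
  · rw [h0]; infer_instance
  haveI : Fact ((p.map (algebraMap F (AlgebraicClosure F))).Splits) := ⟨IsAlgClosed.splits _⟩
  have h1 : Fintype.card (p.rootSet (AlgebraicClosure F)) ≤ 4 := by
    simp_rw [rootSet_def, Finset.coe_sort_coe, Fintype.card_coe]
    exact (Multiset.toFinset_card_le _).trans ((card_roots' _).trans (natDegree_map_le.trans h))
  haveI := solvable_perm (p.rootSet (AlgebraicClosure F)) h1
  exact Group.isSolvable_of_isSolvable_injective
    (Gal.galActionHom_injective p (AlgebraicClosure F))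

end Pool.Agent.H91.QS
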